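import Pool.Agent.Q151.RPS.Levels
import Pool.Agent.Q151.RPS.Table

/-!
# The pair `(3, 8)` has finitely many (and at least one) recursively partitionable semistars

Necessity: for `s = 1, 2, 3` centres the two-part splits of a recursively partitionable semistar are
studied: at most `3` cliques for `s = 1` (and then one of an explicit list of triples), at most `5`
cliques for `s = 2`; for `s = 3` and eight cliques a verified search shows that the clique sizes lie
in an explicit list of `24` vectors. Sufficiency: a table of semistars closed under two-part splits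
contains `K_3 (1, 1, 1, 2, 2, 3, 4, 6)`.
-/

set_option autoImplicit false

namespace Pool.Agent.Results.MP_33d24b_co.ThreeEight

open Pool.Agent.Q151.RPS

/-- the parameter lists of the `(b0, k)` RP semistars: increasing lists of `k` positive integers `b`
such that `K_{b0} (b)` is recursively partitionable -/
def rpSemistars (b0 k : ℕ) : Set (Fin k → ℕ) :=
  {b | Monotone b ∧ (∀ i, 1 ≤ b i) ∧ RP _ (semistar b0 b)}

/-- there is a pair `(b0, k)` of positive integers with finitely many and at least one RP
semistars; in fact `(3, 8)` is such a pair, and there are at most `24` -/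
theorem result :
    (∃ b0 k : ℕ, 0 < b0 ∧ 0 < k ∧ (rpSemistars b0 k).Finite ∧ (rpSemistars b0 k).Nonempty) ∧
    (rpSemistars 3 8).Finite ∧ (rpSemistars 3 8).Nonempty ∧ (rpSemistars 3 8).ncard ≤ 24 := by
  have hsub : Set.MapsTo (fun b : Fin 8 → ℕ => List.ofFn b) (rpSemistars 3 8)
      ((F3.toFinset : Finset (List ℕ)) : Set (List ℕ)) := by
    intro b hb
    obtain ⟨hm, hp, hR⟩ := hb
    simpa using mem_F3 b hp hm hR
  have hinj : Set.InjOn (fun b : Fin 8 → ℕ => List.ofFn b) (rpSemistars 3 8) :=
    fun a _ b _ h => List.ofFn_injective h
  have hfin : (rpSemistars 3 8).Finite :=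
    Set.Finite.of_injOn hsub hinj (Finset.finite_toSet _)
  have hne : (rpSemistars 3 8).Nonempty := by
    refine ⟨![1, 1, 1, 2, 2, 3, 4, 6], ?_, ?_, RP_example⟩
    · intro i j hij
      revert i j
      decide
    · decide
  have hcard : (rpSemistars 3 8).ncard ≤ 24 := by
    have h1 := Set.ncard_le_ncard_of_injOn (fun b : Fin 8 → ℕ => List.ofFn b) hsub hinj
      (Finset.finite_toSet _)
    rw [Set.ncard_coe_finset] at h1
    exact h1.trans ((List.toFinset_card_le F3).trans (by decide))
  exact ⟨⟨3, 8, by norm_num, by norm_num, hfin, hne⟩, hfin, hne, hcard⟩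

end Pool.Agent.Results.MP_33d24b_co.ThreeEight
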